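import Mathlib

open Polynomial

namespace Pool.Agent.Results.MP_f0d684_an.Counter

/-- The closed sector `S(θ)`. -/
def sector (θ : ℝ) : Set ℂ := {z | |Complex.arg z| ≤ θ ∨ z = 0}

/-- The diagonal operator `z ^ k ↦ γ k * z ^ k` on real polynomials. -/
noncomputable def diagOp (γ : ℕ → ℝ) (f : ℝ[X]) : ℝ[X] :=
  f.sum fun k a => monomial k (γ k * a)

/-- Zero-sector reducing operators. -/
def ZeroSectorReducing (T : ℝ[X] → ℝ[X]) : Prop :=
  ∀ θ ∈ Set.Ioo (0 : ℝ) (Real.pi / 2), ∃ γ ∈ Set.Ico (0 : ℝ) θ, ∀ f : ℝ[X], f ≠ 0 →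
    (∀ z : ℂ, aeval z f = 0 → z ∈ sector θ) → ∀ z : ℂ, aeval z (T f) = 0 → z ∈ sector γ

theorem diag_add (γ : ℕ → ℝ) (f g : ℝ[X]) : diagOp γ (f + g) = diagOp γ f + diagOp γ g := by
  unfold diagOp
  apply Polynomial.sum_add_index
  · intro i; simp
  · intro a b c; simp [mul_add]

theorem diag_mono (γ : ℕ → ℝ) (k : ℕ) (a : ℝ) :
    diagOp γ (monomial k a) = monomial k (γ k * a) := by
  unfold diagOp
  rw [Polynomial.sum_monomial_index]
  simp

theorem cubic_real (A b c d : ℝ) (hA : A ≠ 0)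
    (h : ∀ z : ℂ, A * z ^ 3 + b * z ^ 2 + c * z + d = 0 → z.im = 0) :
    0 ≤ b ^ 2 * c ^ 2 - 4 * A * c ^ 3 - 4 * b ^ 3 * d - 27 * A ^ 2 * d ^ 2 + 18 * A * b * c * d := by
  have hA' : (A : ℂ) ≠ 0 := by exact_mod_cast hA
  have hdeg : (C (A : ℂ) * X ^ 3 + C (b : ℂ) * X ^ 2 + C (c : ℂ) * X + C (d : ℂ)).degree = 3 :=
    degree_cubic hA'
  obtain ⟨z, hz⟩ := Complex.exists_root (f := C (A : ℂ) * X ^ 3 + C (b : ℂ) * X ^ 2
    + C (c : ℂ) * X + C (d : ℂ)) (by rw [hdeg]; norm_num)
  simp only [IsRoot.def, eval_add, eval_mul, eval_C, eval_pow, eval_X] at hz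
  have hzi := h z hz
  obtain ⟨r, rfl⟩ : ∃ r : ℝ, z = r := ⟨z.re, by apply Complex.ext <;> simp [hzi]⟩
  have hr : A * r ^ 3 + b * r ^ 2 + c * r + d = 0 := by exact_mod_cast hz
  set B := A * r + b with hB
  set D := B * r + c with hD
  obtain ⟨s, hs⟩ : ∃ s : ℂ, s ^ 2 = ((B ^ 2 - 4 * A * D : ℝ) : ℂ) :=
    ⟨_, Complex.cpow_nat_inv_pow _ two_ne_zero⟩
  have hw : ((-B + s) / (2 * A) : ℂ).im = 0 := by
    apply h
    have e1 : (b : ℂ) = B - A * r := by rw [hB]; push_cast; ring
    have e2 : (c : ℂ) = D - B * r := by rw [hD]; push_cast; ring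
    have e3 : (d : ℂ) = - D * r := by
      have : d = - D * r := by rw [hD, hB]; linear_combination hr
      rw [this]; push_cast; ring
    rw [e1, e2, e3]
    push_cast at hs
    field_simp
    linear_combination (-B + s - 2 * A * r) * hs
  have hsi : s.im = 0 := by
    have : s = 2 * A * ((-B + s) / (2 * A)) + B := by field_simp; ring
    rw [this]
    simp [hw]
  have hdisc : 0 ≤ B ^ 2 - 4 * A * D := by
    have := congrArg Complex.re hs
    simp only [Complex.ofReal_re, sq, Complex.mul_re, hsi] at this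
    nlinarith [mul_self_nonneg s.re]
  have e3 : d = - D * r := by rw [hD, hB]; linear_combination hr
  have e1 : b = B - A * r := by rw [hB]; ring
  have e2 : c = D - B * r := by rw [hD]; ring
  have : b ^ 2 * c ^ 2 - 4 * A * c ^ 3 - 4 * b ^ 3 * d - 27 * A ^ 2 * d ^ 2 + 18 * A * b * c * d
      = (B ^ 2 - 4 * A * D) * (A * r ^ 2 + B * r + D) ^ 2 := by
    clear_value D
    clear_value B
    rw [e1, e2, e3]; ring
  rw [this]
  positivity

theorem result : ¬ ∀ α p : ℝ, 0 < α → 2 < p →
    ZeroSectorReducing (diagOp fun k : ℕ => Real.exp (-α * (k : ℝ) ^ p)) := by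
  intro h
  have hα : 0 < -Real.log (99 / 100) := by
    have := Real.log_neg (x := 99 / 100) (by norm_num) (by norm_num)
    linarith
  have h1 := h _ 3 hα (by norm_num)
  have hγ : ∀ k : ℕ, Real.exp (-(-Real.log (99 / 100)) * (k : ℝ) ^ (3 : ℝ))
      = (99 / 100 : ℝ) ^ (k ^ 3) := by
    intro k
    have : (k : ℝ) ^ (3 : ℝ) = ((k ^ 3 : ℕ) : ℝ) := by
      push_cast; exact_mod_cast Real.rpow_natCast (k : ℝ) 3
    rw [this, neg_neg, mul_comm, Real.exp_nat_mul, Real.exp_log (by norm_num)]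
  simp only [hγ] at h1
  set f : ℝ[X] := monomial 3 1 + monomial 2 (-3) + monomial 1 3 + monomial 0 (-1) with hf
  have hfe : ∀ z : ℂ, aeval z f = (z - 1) ^ 3 := by
    intro z; simp [hf, aeval_monomial]; ring
  have hf0 : f ≠ 0 := by
    intro h0
    have := hfe 0
    rw [h0] at this
    norm_num at this
  have key := cubic_real ((99 / 100) ^ 27) (-3 * (99 / 100) ^ 8) (3 * (99 / 100)) (-1)
    (by positivity) (by
      intro z hz
      have hT : aeval z (diagOp (fun k : ℕ => (99 / 100 : ℝ) ^ (k ^ 3)) f) = 0 := by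
        rw [hf, diag_add, diag_add, diag_add, diag_mono, diag_mono, diag_mono, diag_mono]
        simp only [map_add, aeval_monomial, Complex.coe_algebraMap]
        push_cast at hz ⊢
        linear_combination hz
      by_contra hi
      have hz0 : z ≠ 0 := by rintro rfl; simp at hi
      have ha : 0 < |Complex.arg z| := by
        rw [abs_pos]
        intro h0
        exact hi (Complex.arg_eq_zero_iff.1 h0).2
      obtain ⟨γ, hγ1, hγ2⟩ := h1 (min |Complex.arg z| 1)
        ⟨lt_min ha one_pos, lt_of_le_of_lt (min_le_right _ _) (by linarith [Real.pi_gt_three])⟩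
      have := hγ2 f hf0 (by
        intro w hw
        rw [hfe] at hw
        have : w = 1 := by
          have := pow_eq_zero_iff (three_ne_zero) |>.1 hw
          linear_combination this
        left
        rw [this]
        simp) z hT
      rcases this with h2 | h2
      · have := hγ1.2
        have := min_le_left |Complex.arg z| 1
        linarith
      · exact hz0 h2)
  norm_num at key

end Pool.Agent.Results.MP_f0d684_an.Counter
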